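import Pool.Agent.K6.H82.QS.Ring

/-!
If `Γ(P, ω)` is a product of two nonconstant quasisymmetric functions, of degrees `i` and `n - i`, then
the number of the linear extensions of `P` is divisible by `binom(n, i)`.
-/

set_option autoImplicit false

namespace Pool.Agent.K6.H82.QS

open Finset

/-- the exponent vector of `x_0 ⋯ x_(i-1)` -/
noncomputable def un (i : ℕ) : ℕ →₀ ℕ := lf (List.replicate i 1)

/-- the exponent vector of the product of the variables in `A` -/
noncomputable def ind (A : Finset ℕ) : ℕ →₀ ℕ := Finsupp.indicator A fun _ _ => 1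

lemma ind_apply (A : Finset ℕ) (j : ℕ) : ind A j = if j ∈ A then 1 else 0 := by
  unfold ind
  rw [Finsupp.indicator_apply]
  split_ifs <;> rfl

lemma supp_ind (A : Finset ℕ) : (ind A).support = A := by
  ext j
  rw [Finsupp.mem_support_iff, ind_apply]
  simp

lemma dg_ind (A : Finset ℕ) : dg (ind A) = A.card := by
  unfold dg Finsupp.sum
  rw [supp_ind, sum_congr rfl (fun j hj => by rw [ind_apply, if_pos hj])]
  simp

lemma filter_ones (l : List ℕ) (h : ∀ x ∈ l, x ≤ 1) :
    l.filter (· ≠ 0) = List.replicate l.sum 1 := by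
  induction l with
  | nil => rfl
  | cons a l ih =>
    have h1 := h a (by simp)
    have h2 := ih (fun x hx => h x (by simp [hx]))
    rcases Nat.le_one_iff_eq_zero_or_eq_one.1 h1 with rfl | rfl
    · simpa using h2
    · rw [List.sum_cons, add_comm, List.replicate_succ]
      simpa using h2

lemma list_sum (a : ℕ → ℕ) (N : ℕ) : ((List.range N).map a).sum = ∑ j ∈ range N, a j := by
  induction N with
  | zero => simp
  | succ N ih => simp [List.range_succ, Finset.sum_range_succ, ih]

lemma exists_range (a : ℕ →₀ ℕ) : ∃ N, a.support ⊆ range N := by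
  refine ⟨a.support.sup id + 1, fun j hj => ?_⟩
  rw [mem_range]
  have : id j ≤ a.support.sup id := Finset.le_sup hj
  simp only [id] at this
  omega

lemma qs_ind {F : (ℕ →₀ ℕ) → ℚ} (hF : IsQS F) (a : ℕ →₀ ℕ) (ha : ∀ j, a j ≤ 1) :
    F a = F (un (dg a)) := by
  obtain ⟨N, hN⟩ := exists_range a
  have h1 := qs_filter F hF ((List.range N).map a) []
  rw [List.nil_append, List.nil_append, lf_range a N hN, filter_ones _ (by
    intro x hx
    rw [List.mem_map] at hx
    obtain ⟨j, _, rfl⟩ := hx
    exact ha j), list_sum, ← dg_eq_sum hN] at h1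
  exact h1.symm

theorem mul_ind (F G : MvPowerSeries ℕ ℚ) (hF : IsQS F) (hG : IsQS G) (i j n : ℕ)
    (hn : i + j = n) (hi : Hom i F) (hj : Hom j G) :
    (F * G) (ind (range n)) = (n.choose i : ℚ) * (F (un i) * G (un j)) := by
  rw [mul_apply]
  have h1 : ∑ A ∈ powersetCard i (range n), F (ind A) * G (ind (range n \ A)) =
      ∑ p ∈ antidiagonal (ind (range n)), F p.1 * G p.2 := by
    refine sum_bij_ne_zero (fun A _ _ => (ind A, ind (range n \ A))) ?_ ?_ ?_ ?_
    · intro A hA _
      rw [mem_powersetCard] at hA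
      rw [HasAntidiagonal.mem_antidiagonal]
      ext x
      rw [Finsupp.add_apply, ind_apply, ind_apply, ind_apply]
      by_cases h2 : x ∈ A
      · have h3 := hA.1 h2
        simp [h2, mem_range.1 h3]
      · simp [h2]
    · intro A _ _ B _ _ h
      rw [Prod.mk.injEq] at h
      rw [← supp_ind A, h.1, supp_ind]
    · rintro ⟨a, b⟩ hp h0
      rw [HasAntidiagonal.mem_antidiagonal] at hp
      simp only at hp h0
      have hle : ∀ x, a x + b x = if x ∈ range n then 1 else 0 := by
        intro x
        rw [← ind_apply, ← hp, Finsupp.add_apply]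
      have ha : ind a.support = a := by
        ext x
        have := hle x
        rw [ind_apply]
        by_cases h3 : x ∈ a.support
        · rw [if_pos h3]
          rw [Finsupp.mem_support_iff] at h3
          split_ifs at this <;> omega
        · rw [if_neg h3]
          rw [Finsupp.mem_support_iff] at h3
          omega
      have hsub : a.support ⊆ range n := by
        intro x hx
        by_contra h3
        have := hle x
        rw [if_neg h3] at this
        rw [Finsupp.mem_support_iff] at hx
        omega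
      have hb : ind (range n \ a.support) = b := by
        ext x
        have := hle x
        rw [ind_apply]
        by_cases h3 : x ∈ range n
        · rw [if_pos h3] at this
          by_cases h4 : x ∈ a.support
          · rw [if_neg (fun h => (mem_sdiff.1 h).2 h4)]
            rw [Finsupp.mem_support_iff] at h4
            omega
          · rw [if_pos (mem_sdiff.2 ⟨h3, h4⟩)]
            rw [Finsupp.mem_support_iff] at h4
            omega
        · rw [if_neg h3] at this
          rw [if_neg (fun h => h3 (mem_sdiff.1 h).1)]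
          omega
      have hca : a.support.card = i := by
        rw [← dg_ind, ha]
        exact hi a (left_ne_zero_of_mul h0)
      refine ⟨a.support, ?_, ?_, ?_⟩
      · rw [mem_powersetCard]
        exact ⟨hsub, hca⟩
      · rw [ha, hb]
        exact h0
      · rw [ha, hb]
    · intro A _ _
      rfl
  rw [← h1]
  have h2 : ∀ A ∈ powersetCard i (range n), F (ind A) * G (ind (range n \ A)) =
      F (un i) * G (un j) := by
    intro A hA
    rw [mem_powersetCard] at hA
    rw [qs_ind hF (ind A) (fun x => by rw [ind_apply]; split_ifs <;> omega),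
      qs_ind hG (ind (range n \ A)) (fun x => by rw [ind_apply]; split_ifs <;> omega),
      dg_ind, dg_ind, hA.2, card_sdiff_of_subset hA.1, hA.2, card_range]
    congr 3
    omega
  rw [sum_congr rfl h2, sum_const, card_powersetCard, card_range, nsmul_eq_mul]

/-! ### primitive multiples -/

lemma compress {F : (ℕ →₀ ℕ) → ℚ} (hF : IsQS F) (i : ℕ) (m : ℕ →₀ ℕ) (hm : dg m = i) :
    ∃ m' ∈ finsuppAntidiag (range i) i, F m' = F m := by
  obtain ⟨N, hN⟩ := exists_range m
  have h1 := qs_filter F hF ((List.range N).map m) []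
  rw [List.nil_append, List.nil_append, lf_range m N hN] at h1
  refine ⟨_, ?_, h1⟩
  set l := ((List.range N).map m).filter (· ≠ 0) with hl
  have hsum : l.sum = i := by
    rw [← hm, dg_eq_sum hN, ← list_sum, hl]
    generalize (List.range N).map m = k
    induction k with
    | nil => rfl
    | cons a k ih =>
      by_cases ha : a = 0
      · simpa [ha] using ih
      · simpa [ha] using ih
  have hpos : ∀ x ∈ l, 1 ≤ x := by
    intro x hx
    rw [hl, List.mem_filter] at hx
    have := hx.2
    simp only [ne_eq, decide_not, Bool.not_eq_eq_eq_not, Bool.not_true, decide_eq_false_iff_not] at this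
    omega
  clear_value l
  have hlen : l.length ≤ i := by
    rw [← hsum]
    clear hsum h1 hl
    induction l with
    | nil => simp
    | cons a k ih =>
      have h2 := hpos a (by simp)
      have h3 := ih (fun x hx => hpos x (by simp [hx]))
      simp only [List.length_cons, List.sum_cons]
      omega
  have hsupp : (lf l).support ⊆ range l.length := by
    intro x hx
    rw [Finsupp.mem_support_iff, lf_apply] at hx
    rw [mem_range]
    by_contra h
    apply hx
    rw [List.getD_eq_default _ _ (by omega)]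
  rw [mem_A]
  refine ⟨?_, hsupp.trans (range_mono hlen)⟩
  rw [dg_eq_sum hsupp, ← hsum]
  have : ∀ l : List ℕ, ∑ x ∈ range l.length, lf l x = l.sum := by
    intro l
    induction l with
    | nil => rfl
    | cons a k ih =>
      rw [List.length_cons, Finset.sum_range_succ', List.sum_cons, ← ih, add_comm]
      congr 1
      · simp [lf_apply]
      · apply sum_congr rfl
        intro x _
        simp [lf_apply]
  exact this l

theorem exists_prim (F : MvPowerSeries ℕ ℚ) (hF : IsQS F) (i : ℕ) (hi : Hom i F) (h0 : F ≠ 0) :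
    ∃ (α : ℚ) (Z : MvPowerSeries ℕ ℤ), (∀ m, F m = α * (Z m : ℚ)) ∧
      ∀ p : ℕ, p.Prime → ∃ m, ¬ (p : ℤ) ∣ Z m := by
  classical
  set T := finsuppAntidiag (range i) i with hT
  set D : ℕ := ∏ m ∈ T, (F m).den with hD
  have hD0 : (D : ℚ) ≠ 0 := by
    rw [hD]
    exact_mod_cast (prod_pos fun m _ => (F m).den_pos).ne'
  have hz : ∀ m, ∃ z : ℤ, (D : ℚ) * F m = z := by
    intro m
    by_cases hm : F m = 0
    · exact ⟨0, by rw [hm]; simp⟩
    · obtain ⟨m', hm', he⟩ := compress hF i m (hi m hm)
      obtain ⟨k, hk⟩ : (F m').den ∣ D := dvd_prod_of_mem (fun m => (F m).den) hm'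
      refine ⟨k * (F m').num, ?_⟩
      rw [← he, hk]
      push_cast
      have h1 := Rat.mul_den_eq_num (F m')
      rw [← h1]
      ring
  choose z hz using hz
  have hex : ∃ m ∈ T, z m ≠ 0 := by
    have h1 : ∃ m, F m ≠ 0 := by
      by_contra h3
      push Not at h3
      exact h0 (funext h3)
    obtain ⟨m, hm⟩ := h1
    obtain ⟨m', hm', he⟩ := compress hF i m (hi m hm)
    refine ⟨m', hm', fun h => ?_⟩
    have h2 := hz m'
    rw [h, he] at h2
    rw [Int.cast_zero] at h2
    rcases mul_eq_zero.1 h2 with h3 | h3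
    · exact hD0 h3
    · exact hm h3
  obtain ⟨m0, hm0, hz0⟩ := hex
  obtain ⟨g, hg, hg1⟩ := Finset.extract_gcd z ⟨m0, hm0⟩
  set d := T.gcd z with hd
  have hd0 : d ≠ 0 := by
    intro h
    apply hz0
    rw [hg m0 hm0, h, zero_mul]
  have hdvd : ∀ m, ∃ w, z m = d * w := by
    intro m
    by_cases hm : F m = 0
    · refine ⟨0, ?_⟩
      have h2 := hz m
      rw [hm, mul_zero] at h2
      rw [mul_zero]
      exact_mod_cast h2.symm
    · obtain ⟨m', hm', he⟩ := compress hF i m (hi m hm)
      refine ⟨g m', ?_⟩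
      rw [← hg m' hm']
      have h2 := hz m
      have h3 := hz m'
      rw [he, h2] at h3
      exact_mod_cast h3
  choose w hw using hdvd
  refine ⟨(d : ℚ) / D, w, ?_, ?_⟩
  · intro m
    have h2 := hz m
    rw [hw m] at h2
    push_cast at h2
    field_simp
    linear_combination h2
  · intro p hp
    by_contra h
    push Not at h
    have h1 : (p : ℤ) ∣ T.gcd g := by
      apply Finset.dvd_gcd
      intro m hm
      have h2 : w m = g m := by
        apply mul_left_cancel₀ hd0
        rw [← hw m, hg m hm]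
      rw [← h2]
      exact h m
    rw [hg1] at h1
    have h3 : (p : ℤ) ∣ ((1 : ℕ) : ℤ) := by exact_mod_cast h1
    rw [Int.natCast_dvd_natCast] at h3
    exact hp.one_lt.ne' (Nat.dvd_one.1 h3)

theorem gauss (Z W : MvPowerSeries ℕ ℤ) (p : ℕ) (hp : p.Prime) (hZ : ∃ m, ¬ (p : ℤ) ∣ Z m)
    (hW : ∃ m, ¬ (p : ℤ) ∣ W m) : ∃ m, ¬ (p : ℤ) ∣ (Z * W) m := by
  have : Fact p.Prime := ⟨hp⟩
  by_contra h
  push Not at h
  have h1 : MvPowerSeries.map (Int.castRingHom (ZMod p)) (Z * W) = 0 := by
    ext m
    rw [MvPowerSeries.coeff_map]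
    have : MvPowerSeries.coeff m (Z * W) = (Z * W) m := rfl
    rw [this, map_zero]
    exact (ZMod.intCast_zmod_eq_zero_iff_dvd _ p).2 (h m)
  rw [map_mul] at h1
  have key : ∀ Z : MvPowerSeries ℕ ℤ, MvPowerSeries.map (Int.castRingHom (ZMod p)) Z = 0 →
      ∀ m, (p : ℤ) ∣ Z m := by
    intro Z h2 m
    have h3 := congrArg (MvPowerSeries.coeff m) h2
    rw [MvPowerSeries.coeff_map, map_zero] at h3
    exact (ZMod.intCast_zmod_eq_zero_iff_dvd _ p).1 h3
  rcases mul_eq_zero.1 h1 with h2 | h2
  · obtain ⟨m, hm⟩ := hZ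
    exact hm (key Z h2 m)
  · obtain ⟨m, hm⟩ := hW
    exact hm (key W h2 m)

/-- a product of two homogeneous quasisymmetric functions with integer coefficients: the coefficient
of `x_0 ⋯ x_(n-1)` is divisible by `binom(n, i)` -/
theorem choose_dvd (F G : MvPowerSeries ℕ ℚ) (hF : IsQS F) (hG : IsQS G) (i j n : ℕ)
    (hn : i + j = n) (hi : Hom i F) (hj : Hom j G) (hF0 : F ≠ 0) (hG0 : G ≠ 0)
    (c : (ℕ →₀ ℕ) → ℕ) (hc : ∀ m, (F * G) m = c m) : n.choose i ∣ c (ind (range n)) := by
  obtain ⟨α, Z, hZ, hZp⟩ := exists_prim F hF i hi hF0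
  obtain ⟨β, W, hW, hWp⟩ := exists_prim G hG j hj hG0
  have hprod : ∀ m, (c m : ℚ) = α * β * (((Z * W) m : ℤ) : ℚ) := by
    intro m
    rw [← hc m, mul_apply]
    have h1 : (Z * W) m = ∑ p ∈ antidiagonal m, Z p.1 * W p.2 := MvPowerSeries.coeff_mul m Z W
    rw [h1]
    push_cast
    rw [mul_sum]
    apply sum_congr rfl
    intro p _
    rw [hZ, hW]
    ring
  set r := α * β with hr
  have hden : r.den = 1 := by
    by_contra h
    obtain ⟨p, hp, hpd⟩ := Nat.exists_prime_and_dvd h
    obtain ⟨m, hm⟩ := gauss Z W p hp (hZp p hp) (hWp p hp)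
    apply hm
    have h1 := hprod m
    have h2 : (c m : ℚ) * r.den = r.num * (((Z * W) m : ℤ) : ℚ) := by
      rw [h1, ← Rat.mul_den_eq_num r]
      ring
    have h3 : (c m : ℤ) * r.den = r.num * (Z * W) m := by exact_mod_cast h2
    have h4 : (p : ℤ) ∣ r.num * (Z * W) m := by
      rw [← h3]
      exact Dvd.dvd.mul_left (Int.natCast_dvd_natCast.2 hpd) _
    have h5 : IsCoprime (p : ℤ) r.num := by
      rw [Int.isCoprime_iff_gcd_eq_one]
      have h6 := r.reduced
      have h7 : Nat.Coprime p r.num.natAbs := (Nat.Coprime.coprime_dvd_right hpd h6).symm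
      simpa [Int.gcd] using h7
    exact h5.dvd_of_dvd_mul_left h4
  have hr1 : r = r.num := by
    have h1 := Rat.mul_den_eq_num r
    rw [hden] at h1
    simpa using h1
  have h1 := mul_ind F G hF hG i j n hn hi hj
  rw [hc, hZ, hW] at h1
  have h2 : ((c (ind (range n)) : ℤ) : ℚ) =
      (((n.choose i : ℤ) * (r.num * (Z (un i) * W (un j))) : ℤ) : ℚ) := by
    push_cast
    rw [h1, ← hr1, hr]
    ring
  have h3 : (c (ind (range n)) : ℤ) = (n.choose i : ℤ) * (r.num * (Z (un i) * W (un j))) := by
    exact_mod_cast h2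
  have h4 : ((n.choose i : ℕ) : ℤ) ∣ ((c (ind (range n)) : ℕ) : ℤ) := ⟨_, h3⟩
  exact Int.natCast_dvd_natCast.1 h4

end Pool.Agent.K6.H82.QS
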