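import Pool.Agent.K6.H82.QS.Rot

/-!
A homogeneous quasisymmetric function of degree `k`, `0 < k < n`, vanishes at
`(1, ζ, …, ζ^(n-1), 0, 0, …)`, where `ζ` is a primitive `n`-th root of unity.
-/

set_option autoImplicit false

namespace Pool.Agent.K6.H82.QS

open Finset

/-- the exponent of `ζ` -/
def wt (N : ℕ) (m : ℕ →₀ ℕ) : ℕ := ∑ j ∈ range N, j * m j

section expand
variable {A : Type} [Ring A] [Algebra ℂ A]

lemma coeff_Pr_eq (ζ : ℂ) (s : ℕ → A) (N k : ℕ) :
    PowerSeries.coeff k (Pr ζ s N) =
      ∑ m ∈ finsuppAntidiag (range N) k,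
        (ζ ^ wt N m) • ((List.range N).map fun j => s (m j)).prod := by
  induction N generalizing k with
  | zero =>
    show PowerSeries.coeff k (1 : PowerSeries A) = _
    rw [PowerSeries.coeff_one]
    rcases Nat.eq_zero_or_pos k with rfl | hk
    · simp [wt]
    · rw [if_neg hk.ne', range_zero, finsuppAntidiag_empty_of_ne_zero hk.ne', sum_empty]
  | succ N ih =>
    show PowerSeries.coeff k (Pr ζ s N * sg ζ s N) = _
    rw [PowerSeries.coeff_mul]
    simp_rw [ih, coeff_sg, sum_mul]
    rw [Finset.sum_sigma']
    refine Finset.sum_bij' (fun x _ => x.2 + Finsupp.single N x.1.2)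
      (fun m _ => ⟨(k - m N, m N), m.erase N⟩) ?_ ?_ ?_ ?_ ?_
    · rintro ⟨⟨a, b⟩, m⟩ hx
      rw [mem_sigma, HasAntidiagonal.mem_antidiagonal, mem_finsuppAntidiag] at hx
      obtain ⟨h1, h2, h3⟩ := hx
      simp only at h1 h2 h3 ⊢
      have hmN : m N = 0 := by
        by_contra h
        exact absurd (h3 (Finsupp.mem_support_iff.2 h)) (by simp)
      rw [mem_finsuppAntidiag]
      constructor
      · rw [sum_range_succ, Finsupp.add_apply, hmN, Finsupp.single_eq_same, zero_add, ← h1, ← h2]
        congr 1
        apply sum_congr rfl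
        intro j hj
        rw [Finsupp.add_apply, Finsupp.single_eq_of_ne (by have := mem_range.1 hj; omega), add_zero]
      · intro j hj
        rw [Finsupp.mem_support_iff, Finsupp.add_apply] at hj
        rw [mem_range]
        by_contra h
        apply hj
        have h4 : m j = 0 := by
          by_contra h5
          have := mem_range.1 (h3 (Finsupp.mem_support_iff.2 h5))
          omega
        rw [h4, Finsupp.single_eq_of_ne (by omega), add_zero]
    · intro m hm
      rw [mem_finsuppAntidiag, sum_range_succ] at hm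
      obtain ⟨h1, h2⟩ := hm
      rw [mem_sigma, HasAntidiagonal.mem_antidiagonal, mem_finsuppAntidiag]
      refine ⟨by simp only; omega, ?_, ?_⟩
      · have : ∑ j ∈ range N, (m.erase N) j = ∑ j ∈ range N, m j := by
          apply sum_congr rfl
          intro j hj
          rw [Finsupp.erase_ne (by have := mem_range.1 hj; omega)]
        show ∑ j ∈ range N, (m.erase N) j = k - m N
        rw [this]
        omega
      · intro j hj
        rw [Finsupp.support_erase, mem_erase] at hj
        have := mem_range.1 (h2 hj.2)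
        rw [mem_range]
        omega
    · rintro ⟨⟨a, b⟩, m⟩ hx
      rw [mem_sigma, HasAntidiagonal.mem_antidiagonal, mem_finsuppAntidiag] at hx
      obtain ⟨h1, h2, h3⟩ := hx
      simp only at h1 h2 h3 ⊢
      have hmN : m N = 0 := by
        by_contra h
        exact absurd (h3 (Finsupp.mem_support_iff.2 h)) (by simp)
      have e1 : (m + Finsupp.single N b) N = b := by
        rw [Finsupp.add_apply, hmN, Finsupp.single_eq_same, zero_add]
      have e2 : (m + Finsupp.single N b).erase N = m := by
        ext j
        by_cases hj : j = N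
        · rw [hj, Finsupp.erase_same, hmN]
        · rw [Finsupp.erase_ne hj, Finsupp.add_apply, Finsupp.single_eq_of_ne (by omega), add_zero]
      rw [e1, e2]
      have : k - b = a := by omega
      rw [this]
    · intro m hm
      simp only
      ext j
      rw [Finsupp.add_apply]
      by_cases hj : j = N
      · rw [hj, Finsupp.erase_same, Finsupp.single_eq_same, zero_add]
      · rw [Finsupp.erase_ne hj, Finsupp.single_eq_of_ne (by omega), add_zero]
    · rintro ⟨⟨a, b⟩, m⟩ hx
      rw [mem_sigma, HasAntidiagonal.mem_antidiagonal, mem_finsuppAntidiag] at hx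
      obtain ⟨h1, h2, h3⟩ := hx
      simp only at h1 h2 h3 ⊢
      have hmN : m N = 0 := by
        by_contra h
        exact absurd (h3 (Finsupp.mem_support_iff.2 h)) (by simp)
      have e0 : ∀ j ∈ range N, (m + Finsupp.single N b) j = m j := by
        intro j hj
        rw [Finsupp.add_apply, Finsupp.single_eq_of_ne (by have := mem_range.1 hj; omega), add_zero]
      have e1 : (m + Finsupp.single N b) N = b := by
        rw [Finsupp.add_apply, hmN, Finsupp.single_eq_same, zero_add]
      have e3 : wt (N + 1) (m + Finsupp.single N b) = wt N m + N * b := by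
        unfold wt
        rw [sum_range_succ, e1]
        congr 1
        apply sum_congr rfl
        intro j hj
        rw [e0 j hj]
      have e4 : ((List.range (N + 1)).map fun j => s ((m + Finsupp.single N b) j)).prod =
          ((List.range N).map fun j => s (m j)).prod * s b := by
        rw [List.range_succ, List.map_append, List.prod_append]
        simp only [List.map_cons, List.map_nil, List.prod_cons, List.prod_nil, mul_one, e1]
        congr 2
        apply List.map_congr_left
        intro j hj
        rw [e0 j (by rw [mem_range]; exact List.mem_range.1 hj)]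
      rw [e3, e4, smul_mul_smul_comm, pow_add]

end expand

/-! ### the functional -/

/-- appending a nonzero letter -/
noncomputable def ap (e : ℕ) : Module.End ℂ (List ℕ → ℂ) where
  toFun c := fun w => if e = 0 then c w else c (w ++ [e])
  map_add' c d := by
    ext w
    simp only [Pi.add_apply]
    split_ifs <;> rfl
  map_smul' a c := by
    ext w
    simp only [Pi.smul_apply, RingHom.id_apply]
    split_ifs <;> rfl

lemma ap_zero : ap 0 = 1 := by
  ext c w
  simp [ap]

lemma prod_ap (m : ℕ → ℕ) (L : List ℕ) (c : List ℕ → ℂ) (w : List ℕ) :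
    ((L.map fun j => ap (m j)).prod c) w = c (w ++ (L.map m).filter (· ≠ 0)) := by
  induction L generalizing w with
  | nil => simp
  | cons a L ih =>
    rw [List.map_cons, List.prod_cons, Module.End.mul_apply]
    show (if m a = 0 then ((L.map fun j => ap (m j)).prod c) w
      else ((L.map fun j => ap (m j)).prod c) (w ++ [m a])) = _
    rw [ih, ih]
    by_cases h : m a = 0
    · simp [h]
    · simp [h]

lemma sum_filter (n : ℕ) (ζ : ℂ) (hζ : IsPrimitiveRoot ζ n) (k : ℕ) (hk : 0 < k) (hn : k < n)
    (c : List ℕ → ℂ) :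
    ∑ m ∈ finsuppAntidiag (range n) k,
      ζ ^ wt n m * c (((List.range n).map m).filter (· ≠ 0)) = 0 := by
  have h1 := coeff_Pr_eq ζ ap n k
  rw [coeff_Pr ζ ap ap_zero n hζ k hk hn] at h1
  have h2 := congrArg (fun T : Module.End ℂ (List ℕ → ℂ) => T c []) h1
  simp only [LinearMap.zero_apply, Pi.zero_apply] at h2
  rw [LinearMap.sum_apply, Finset.sum_apply] at h2
  rw [h2]
  apply sum_congr rfl
  intro m _
  rw [LinearMap.smul_apply, Pi.smul_apply, prod_ap, List.nil_append, smul_eq_mul]

/-! ### quasisymmetric functions -/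

/-- the exponent vector given by a list -/
noncomputable def lf : List ℕ → (ℕ →₀ ℕ)
  | [] => 0
  | a :: l => Finsupp.single 0 a + Finsupp.mapDomain Nat.succ (lf l)

/-- the strictly increasing map which leaves out `k` -/
def gp (k x : ℕ) : ℕ := if x < k then x else x + 1

lemma gp_mono (k : ℕ) : StrictMono (gp k) := by
  intro x y h
  unfold gp
  split_ifs <;> omega

lemma lf_ins (u l : List ℕ) : lf (u ++ 0 :: l) = Finsupp.mapDomain (gp u.length) (lf (u ++ l)) := by
  induction u with
  | nil =>
    show Finsupp.single 0 0 + Finsupp.mapDomain Nat.succ (lf l) = Finsupp.mapDomain (gp 0) (lf l)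
    rw [Finsupp.single_zero, zero_add]
    rfl
  | cons a u ih =>
    show Finsupp.single 0 a + Finsupp.mapDomain Nat.succ (lf (u ++ 0 :: l)) =
      Finsupp.mapDomain (gp (u.length + 1)) (Finsupp.single 0 a + Finsupp.mapDomain Nat.succ (lf (u ++ l)))
    rw [ih, Finsupp.mapDomain_add, Finsupp.mapDomain_single, ← Finsupp.mapDomain_comp,
      ← Finsupp.mapDomain_comp]
    congr 2
    ext x
    simp only [Function.comp, gp]
    split_ifs <;> omega

lemma lf_apply (l : List ℕ) (j : ℕ) : lf l j = l.getD j 0 := by
  induction l generalizing j with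
  | nil => simp [lf]
  | cons a l ih =>
    show (Finsupp.single 0 a + Finsupp.mapDomain Nat.succ (lf l) : ℕ →₀ ℕ) j = _
    rw [Finsupp.add_apply]
    cases j with
    | zero =>
      rw [Finsupp.single_eq_same, Finsupp.mapDomain_of_notMem_range _ _ (by simp)]
      simp
    | succ j =>
      rw [Finsupp.single_eq_of_ne (by omega), zero_add,
        Finsupp.mapDomain_apply Nat.succ_injective, ih]
      simp

/-- quasisymmetry -/
def IsQS (F : (ℕ →₀ ℕ) → ℚ) : Prop :=
  ∀ m : ℕ →₀ ℕ, ∀ g : ℕ → ℕ, StrictMono g → F (Finsupp.mapDomain g m) = F m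

lemma qs_filter (F : (ℕ →₀ ℕ) → ℚ) (hF : IsQS F) (l u : List ℕ) :
    F (lf (u ++ l.filter (· ≠ 0))) = F (lf (u ++ l)) := by
  induction l generalizing u with
  | nil => rfl
  | cons a l ih =>
    by_cases h : a = 0
    · rw [h, lf_ins, hF _ _ (gp_mono _), ← ih]
      simp
    · have h1 := ih (u ++ [a])
      rw [List.append_assoc, List.append_assoc] at h1
      simpa [h] using h1

lemma lf_range (m : ℕ →₀ ℕ) (N : ℕ) (h : m.support ⊆ range N) : lf ((List.range N).map m) = m := by
  ext j
  rw [lf_apply]
  by_cases hj : j < N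
  · simp [List.getD_eq_getElem?_getD, hj]
  · have h1 : m j = 0 := by
      by_contra h5
      have := mem_range.1 (h (Finsupp.mem_support_iff.2 h5))
      omega
    simp [List.getD_eq_getElem?_getD, hj, h1]

/-- the value at `(1, ζ, …, ζ^(n-1))` of the part of degree `k` -/
noncomputable def ev (n : ℕ) (ζ : ℂ) (k : ℕ) (F : (ℕ →₀ ℕ) → ℚ) : ℂ :=
  ∑ m ∈ finsuppAntidiag (range n) k, (F m : ℂ) * ζ ^ wt n m

theorem ev_zero (n : ℕ) (ζ : ℂ) (hζ : IsPrimitiveRoot ζ n) (k : ℕ) (hk : 0 < k) (hn : k < n)
    (F : (ℕ →₀ ℕ) → ℚ) (hF : IsQS F) : ev n ζ k F = 0 := by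
  rw [← sum_filter n ζ hζ k hk hn (fun l => (F (lf l) : ℂ))]
  unfold ev
  apply sum_congr rfl
  intro m hm
  rw [mem_finsuppAntidiag] at hm
  have h1 := qs_filter F hF ((List.range n).map m) []
  rw [List.nil_append, List.nil_append, lf_range m n hm.2] at h1
  rw [h1, mul_comm]

end Pool.Agent.K6.H82.QS
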