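import Pool.Agent.K6.H82.QS.Ev

/-!
A homogeneous quasisymmetric function of degree `n ≥ 1` which does not vanish at
`(1, ζ, …, ζ^(n-1), 0, 0, …)`, `ζ` a primitive `n`-th root of unity, is irreducible.
-/

set_option autoImplicit false

namespace Pool.Agent.K6.H82.QS

open Finset

/-- the degree of a monomial -/
def dg (m : ℕ →₀ ℕ) : ℕ := m.sum fun _ e => e

lemma dg_add (a b : ℕ →₀ ℕ) : dg (a + b) = dg a + dg b :=
  Finsupp.sum_add_index' (fun _ => rfl) (fun _ _ _ => rfl)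

lemma dg_zero : dg 0 = 0 := Finsupp.sum_zero_index

lemma dg_eq_zero {m : ℕ →₀ ℕ} (h : dg m = 0) : m = 0 := by
  ext j
  by_contra hj
  have h1 : j ∈ m.support := Finsupp.mem_support_iff.2 hj
  exact hj ((Finset.sum_eq_zero_iff.1 h) j h1)

lemma dg_eq_sum {m : ℕ →₀ ℕ} {N : ℕ} (h : m.support ⊆ range N) :
    dg m = ∑ j ∈ range N, m j :=
  Finset.sum_subset h (fun j _ hj => by simpa using hj)

/-- homogeneous of degree `i` -/
def Hom (i : ℕ) (F : MvPowerSeries ℕ ℚ) : Prop := ∀ m, F m ≠ 0 → dg m = i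

lemma mul_apply (F G : MvPowerSeries ℕ ℚ) (m : ℕ →₀ ℕ) :
    (F * G) m = ∑ p ∈ antidiagonal m, F p.1 * G p.2 :=
  MvPowerSeries.coeff_mul m F G

lemma exists_mul_ne (F G : MvPowerSeries ℕ ℚ) (i j : ℕ) (hi : ∃ m, dg m = i ∧ F m ≠ 0)
    (hj : ∃ m, dg m = j ∧ G m ≠ 0)
    (h : ∀ a b, F a ≠ 0 → G b ≠ 0 → dg a + dg b = i + j → dg a = i ∧ dg b = j) :
    ∃ m, dg m = i + j ∧ (F * G) m ≠ 0 := by
  let F' : MvPowerSeries ℕ ℚ := fun m => if dg m = i then F m else 0
  let G' : MvPowerSeries ℕ ℚ := fun m => if dg m = j then G m else 0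
  have hF : F' ≠ 0 := by
    obtain ⟨m, h1, h2⟩ := hi
    intro h3
    apply h2
    have h4 := congrFun h3 m
    have h5 : F' m = F m := if_pos h1
    rw [← h5, h4]
    rfl
  have hG : G' ≠ 0 := by
    obtain ⟨m, h1, h2⟩ := hj
    intro h3
    apply h2
    have h4 := congrFun h3 m
    have h5 : G' m = G m := if_pos h1
    rw [← h5, h4]
    rfl
  have h1 : F' * G' ≠ 0 := mul_ne_zero hF hG
  have h2 : ∃ m, (F' * G') m ≠ 0 := by
    by_contra h3
    push Not at h3
    exact h1 (funext h3)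
  obtain ⟨m, hm⟩ := h2
  have h3 : dg m = i + j := by
    rw [mul_apply] at hm
    obtain ⟨p, hp, h4⟩ := Finset.exists_ne_zero_of_sum_ne_zero hm
    rw [HasAntidiagonal.mem_antidiagonal] at hp
    have h5 : dg p.1 = i := by
      by_contra h6
      apply h4
      show (if dg p.1 = i then F p.1 else 0) * _ = 0
      rw [if_neg h6, zero_mul]
    have h6 : dg p.2 = j := by
      by_contra h6
      apply h4
      show _ * (if dg p.2 = j then G p.2 else 0) = 0
      rw [if_neg h6, mul_zero]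
    rw [← hp, dg_add, h5, h6]
  refine ⟨m, h3, ?_⟩
  intro h4
  apply hm
  rw [mul_apply] at h4 ⊢
  rw [← h4]
  apply sum_congr rfl
  intro p hp
  rw [HasAntidiagonal.mem_antidiagonal] at hp
  show (if dg p.1 = i then F p.1 else 0) * (if dg p.2 = j then G p.2 else 0) = F p.1 * G p.2
  by_cases h5 : F p.1 = 0
  · rw [h5]
    simp
  by_cases h6 : G p.2 = 0
  · rw [h6]
    simp
  obtain ⟨h7, h8⟩ := h p.1 p.2 h5 h6 (by rw [← dg_add, hp, h3])
  rw [if_pos h7, if_pos h8]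

lemma exists_top (F : MvPowerSeries ℕ ℚ) (hF : F ≠ 0) (hb : ∃ N, ∀ m, N < dg m → F m = 0) :
    ∃ d, (∃ m, dg m = d ∧ F m ≠ 0) ∧ ∀ m, F m ≠ 0 → dg m ≤ d := by
  classical
  have h0 : ∃ m, F m ≠ 0 := by
    by_contra h3
    push Not at h3
    exact hF (funext h3)
  refine ⟨Nat.find hb, ?_, ?_⟩
  · by_contra h1
    push Not at h1
    rcases Nat.eq_zero_or_pos (Nat.find hb) with h2 | h2
    · obtain ⟨m, hm⟩ := h0
      apply hm
      rcases Nat.eq_zero_or_pos (dg m) with h3 | h3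
      · exact h1 m (by rw [h2, h3])
      · exact Nat.find_spec hb m (by rw [h2]; exact h3)
    · have h3 := Nat.find_min hb (Nat.sub_lt h2 Nat.one_pos)
      apply h3
      intro m hm
      rcases lt_or_eq_of_le (show Nat.find hb ≤ dg m by omega) with h4 | h4
      · exact Nat.find_spec hb m h4
      · exact h1 m h4.symm
  · intro m hm
    by_contra h1
    push Not at h1
    exact hm (Nat.find_spec hb m h1)

lemma exists_bot (F : MvPowerSeries ℕ ℚ) (hF : F ≠ 0) :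
    ∃ d, (∃ m, dg m = d ∧ F m ≠ 0) ∧ ∀ m, F m ≠ 0 → d ≤ dg m := by
  classical
  have h0 : ∃ d, ∃ m, dg m = d ∧ F m ≠ 0 := by
    by_contra h3
    push Not at h3
    exact hF (funext fun m => h3 (dg m) m rfl)
  exact ⟨Nat.find h0, Nat.find_spec h0, fun m hm => Nat.find_min' h0 ⟨m, rfl, hm⟩⟩

/-- the factors of a homogeneous function are homogeneous -/
theorem factors (F G : MvPowerSeries ℕ ℚ) (n : ℕ) (h : Hom n (F * G)) (h0 : F * G ≠ 0)
    (hF : ∃ N, ∀ m, N < dg m → F m = 0) (hG : ∃ N, ∀ m, N < dg m → G m = 0) :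
    ∃ i j, i + j = n ∧ Hom i F ∧ Hom j G := by
  have hF0 : F ≠ 0 := left_ne_zero_of_mul h0
  have hG0 : G ≠ 0 := right_ne_zero_of_mul h0
  obtain ⟨a, ha, ha'⟩ := exists_top F hF0 hF
  obtain ⟨b, hb, hb'⟩ := exists_top G hG0 hG
  obtain ⟨c, hc, hc'⟩ := exists_bot F hF0
  obtain ⟨d, hd, hd'⟩ := exists_bot G hG0
  obtain ⟨m, hm, hm'⟩ := exists_mul_ne F G a b ha hb (fun x y hx hy hxy => by
    have := ha' x hx
    have := hb' y hy
    omega)
  obtain ⟨l, hl, hl'⟩ := exists_mul_ne F G c d hc hd (fun x y hx hy hxy => by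
    have := hc' x hx
    have := hd' y hy
    omega)
  have h1 := h m hm'
  have h2 := h l hl'
  obtain ⟨x, hx, hx'⟩ := ha
  obtain ⟨y, hy, hy'⟩ := hb
  have h3 := hc' x hx'
  have h4 := hd' y hy'
  refine ⟨a, b, by omega, ?_, ?_⟩
  · intro z hz
    have := ha' z hz
    have := hc' z hz
    omega
  · intro z hz
    have := hb' z hz
    have := hd' z hz
    omega

lemma wt_add (N : ℕ) (a b : ℕ →₀ ℕ) : wt N (a + b) = wt N a + wt N b := by
  unfold wt
  rw [← sum_add_distrib]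
  apply sum_congr rfl
  intro j _
  rw [Finsupp.add_apply]
  ring

lemma mem_A {n k : ℕ} {m : ℕ →₀ ℕ} :
    m ∈ finsuppAntidiag (range n) k ↔ dg m = k ∧ m.support ⊆ range n := by
  rw [mem_finsuppAntidiag]
  constructor
  · rintro ⟨h1, h2⟩
    exact ⟨by rw [dg_eq_sum h2, h1], h2⟩
  · rintro ⟨h1, h2⟩
    exact ⟨by rw [← dg_eq_sum h2, h1], h2⟩

theorem ev_mul (n : ℕ) (ζ : ℂ) (i j : ℕ) (F G : MvPowerSeries ℕ ℚ) (hF : Hom i F) (hG : Hom j G) :
    ev n ζ (i + j) (F * G) = ev n ζ i F * ev n ζ j G := by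
  unfold ev
  rw [sum_mul_sum, ← sum_product']
  simp_rw [mul_apply]
  push_cast
  simp_rw [sum_mul]
  rw [sum_sigma']
  refine sum_bij_ne_zero (fun x _ _ => x.2) ?_ ?_ ?_ ?_
  · rintro ⟨m, a, b⟩ hx h0
    simp only at h0 ⊢
    rw [mem_sigma, mem_A, HasAntidiagonal.mem_antidiagonal] at hx
    obtain ⟨⟨h1, h2⟩, h3⟩ := hx
    simp only at h1 h2 h3
    have ha : F a ≠ 0 := by
      intro h
      apply h0
      rw [h]
      simp
    have hb : G b ≠ 0 := by
      intro h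
      apply h0
      rw [h]
      simp
    rw [mem_product, mem_A, mem_A]
    refine ⟨⟨hF a ha, ?_⟩, hG b hb, ?_⟩
    · intro x hx
      apply h2
      rw [← h3]
      rw [Finsupp.mem_support_iff] at hx ⊢
      rw [Finsupp.add_apply]
      have hx' : a x ≠ 0 := hx
      omega
    · intro x hx
      apply h2
      rw [← h3]
      rw [Finsupp.mem_support_iff] at hx ⊢
      rw [Finsupp.add_apply]
      have hx' : b x ≠ 0 := hx
      omega
  · rintro ⟨m, a, b⟩ hx _ ⟨m', a', b'⟩ hx' _ h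
    rw [mem_sigma, HasAntidiagonal.mem_antidiagonal] at hx hx'
    simp only [Prod.mk.injEq] at h
    obtain ⟨rfl, rfl⟩ := h
    have h1 := hx.2
    have h2 := hx'.2
    simp only at h1 h2
    subst h1
    subst h2
    rfl
  · rintro ⟨a, b⟩ hx h0
    rw [mem_product, mem_A, mem_A] at hx
    obtain ⟨⟨h1, h2⟩, h3, h4⟩ := hx
    simp only at h1 h2 h3 h4 h0
    refine ⟨⟨a + b, a, b⟩, ?_, ?_, rfl⟩
    · rw [mem_sigma, mem_A, HasAntidiagonal.mem_antidiagonal]
      refine ⟨⟨by rw [dg_add, h1, h3], ?_⟩, rfl⟩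
      exact (Finsupp.support_add).trans (union_subset h2 h4)
    · simp only
      rw [wt_add, pow_add]
      intro h
      apply h0
      rw [← h]
      ring
  · rintro ⟨m, a, b⟩ hx _
    rw [mem_sigma, HasAntidiagonal.mem_antidiagonal] at hx
    have h1 := hx.2
    simp only at h1 ⊢
    rw [← h1, wt_add, pow_add]
    ring

/-- the condition which characterises the ring of the quasisymmetric functions -/
def IsQSym (Q : Subring (MvPowerSeries ℕ ℚ)) : Prop :=
  ∀ F : MvPowerSeries ℕ ℚ, F ∈ Q ↔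
    ((∃ N : ℕ, ∀ m : ℕ →₀ ℕ, N < m.sum (fun _ e => e) → F m = 0) ∧
      ∀ m : ℕ →₀ ℕ, ∀ g : ℕ → ℕ, StrictMono g → F (Finsupp.mapDomain g m) = F m)

lemma const_mem {Q : Subring (MvPowerSeries ℕ ℚ)} (hQ : IsQSym Q) (c : ℚ) :
    MvPowerSeries.C c ∈ Q := by
  rw [hQ]
  have h0 : ∀ m : ℕ →₀ ℕ, (MvPowerSeries.C c : MvPowerSeries ℕ ℚ) m = if m = 0 then c else 0 := by
    intro m
    exact MvPowerSeries.coeff_C m c
  constructor
  · refine ⟨0, fun m hm => ?_⟩
    rw [h0, if_neg]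
    rintro rfl
    rw [Finsupp.sum_zero_index] at hm
    omega
  · intro m g hg
    rw [h0, h0]
    congr 1
    apply propext
    constructor
    · intro h
      apply Finsupp.mapDomain_injective hg.injective
      rw [h, Finsupp.mapDomain_zero]
    · rintro rfl
      rw [Finsupp.mapDomain_zero]

lemma unit_of_hom {Q : Subring (MvPowerSeries ℕ ℚ)} (hQ : IsQSym Q) (f : Q)
    (hf : Hom 0 (f : MvPowerSeries ℕ ℚ)) (h0 : f ≠ 0) : IsUnit f := by
  set c : ℚ := (f : MvPowerSeries ℕ ℚ) 0 with hc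
  have h1 : (f : MvPowerSeries ℕ ℚ) = MvPowerSeries.C c := by
    funext m
    have h2 : (MvPowerSeries.C c : MvPowerSeries ℕ ℚ) m = if m = 0 then c else 0 :=
      MvPowerSeries.coeff_C m c
    rw [h2]
    split_ifs with h
    · rw [h]
    · by_contra h3
      exact h (dg_eq_zero (hf m h3))
  have hc0 : c ≠ 0 := by
    intro h2
    apply h0
    apply Subtype.ext
    rw [h1, h2, map_zero]
    rfl
  refine IsUnit.of_mul_eq_one ⟨MvPowerSeries.C c⁻¹, const_mem hQ _⟩ ?_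
  apply Subtype.ext
  show (f : MvPowerSeries ℕ ℚ) * MvPowerSeries.C c⁻¹ = 1
  rw [h1, ← map_mul, mul_inv_cancel₀ hc0, map_one]

theorem irr_of_ev {Q : Subring (MvPowerSeries ℕ ℚ)} (hQ : IsQSym Q) (n : ℕ) (hn : 0 < n) (G : Q)
    (hG : Hom n (G : MvPowerSeries ℕ ℚ)) (ζ : ℂ) (hζ : IsPrimitiveRoot ζ n)
    (h : ev n ζ n (G : MvPowerSeries ℕ ℚ) ≠ 0) : Irreducible G := by
  have hG0 : (G : MvPowerSeries ℕ ℚ) ≠ 0 := by
    intro h1
    apply h
    rw [h1]
    unfold ev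
    apply sum_eq_zero
    intro m _
    have : (0 : MvPowerSeries ℕ ℚ) m = 0 := rfl
    rw [this]
    simp
  constructor
  · intro hu
    obtain ⟨H, hH⟩ := hu.exists_right_inv
    have h1 := congrArg (fun x : Q => (x : MvPowerSeries ℕ ℚ) 0) hH
    have h2 : ((G * H : Q) : MvPowerSeries ℕ ℚ) 0 =
        (G : MvPowerSeries ℕ ℚ) 0 * (H : MvPowerSeries ℕ ℚ) 0 := by
      show ((G : MvPowerSeries ℕ ℚ) * (H : MvPowerSeries ℕ ℚ)) 0 = _
      rw [mul_apply]
      simp
    have h3 : ((1 : Q) : MvPowerSeries ℕ ℚ) 0 = 1 := by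
      show MvPowerSeries.coeff 0 (1 : MvPowerSeries ℕ ℚ) = 1
      simp
    simp only [h2, h3] at h1
    have h4 : (G : MvPowerSeries ℕ ℚ) 0 ≠ 0 := left_ne_zero_of_mul (by rw [h1]; exact one_ne_zero)
    have h5 := hG 0 h4
    rw [dg_zero] at h5
    omega
  · intro f g hfg
    have e : (G : MvPowerSeries ℕ ℚ) = (f : MvPowerSeries ℕ ℚ) * (g : MvPowerSeries ℕ ℚ) := by
      rw [hfg]
      rfl
    have hf0 : f ≠ 0 := by
      rintro rfl
      apply hG0
      rw [hfg, zero_mul]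
      rfl
    have hg0 : g ≠ 0 := by
      rintro rfl
      apply hG0
      rw [hfg, mul_zero]
      rfl
    obtain ⟨i, j, hij, hi, hj⟩ := factors f g n (by rw [← e]; exact hG) (by rw [← e]; exact hG0)
      ((hQ f).1 f.2).1 ((hQ g).1 g.2).1
    rcases Nat.eq_zero_or_pos i with rfl | hi0
    · exact Or.inl (unit_of_hom hQ f hi hf0)
    rcases Nat.eq_zero_or_pos j with rfl | hj0
    · exact Or.inr (unit_of_hom hQ g hj hg0)
    exfalso
    apply h
    have h1 := ev_mul n ζ i j _ _ hi hj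
    rw [hij, ← e] at h1
    rw [h1, ev_zero n ζ hζ i hi0 (by omega) _ ((hQ f).1 f.2).2, zero_mul]

end Pool.Agent.K6.H82.QS
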