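import Pool.Agent.K6.H82.QS.Bin

/-!
Necessary conditions for a factorization of `Γ(P, ω)`.
-/

set_option autoImplicit false

namespace Pool.Agent.K6.H82.QS

open Finset

section
variable {P : Type} [Fintype P] [PartialOrder P]

/-- the number of the linear extensions -/
noncomputable def nle (P : Type) [Fintype P] [PartialOrder P] : ℕ :=
  Nat.card {e : P ≃ Fin (Fintype.card P) // ∀ a b : P, a < b → e a < e b}

lemma content_le (f : P → ℕ) {p q : P} (hpq : p ≠ q) (h : f p = f q) :
    2 ≤ (∑ p : P, Finsupp.single (f p) 1 : ℕ →₀ ℕ) (f p) := by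
  classical
  rw [Finsupp.finsetSum_apply]
  have h1 : ∑ x ∈ ({p, q} : Finset P), (Finsupp.single (f x) 1 : ℕ →₀ ℕ) (f p) ≤
      ∑ x : P, (Finsupp.single (f x) 1 : ℕ →₀ ℕ) (f p) :=
    sum_le_sum_of_subset (subset_univ _)
  rw [sum_pair hpq, ← h, Finsupp.single_eq_same] at h1
  exact h1

lemma card_lin (ω : P → ℕ) :
    Nat.card {f : P → ℕ // (∀ a b : P, a < b → f a ≤ f b ∧ (ω b < ω a → f a < f b)) ∧
      ∑ p : P, Finsupp.single (f p) 1 = ind (range (Fintype.card P))} = nle P := by
  unfold nle
  symm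
  refine Nat.card_congr (Equiv.ofBijective (fun e => ⟨fun p => (e.1 p : ℕ), ?_, ?_⟩) ⟨?_, ?_⟩)
  · intro a b hab
    have h1 := e.2 a b hab
    exact ⟨le_of_lt h1, fun _ => h1⟩
  · rw [e.1.sum_comp (fun k : Fin (Fintype.card P) => Finsupp.single (k : ℕ) 1)]
    ext j
    rw [Finsupp.finsetSum_apply, ind_apply,
      Fin.sum_univ_eq_sum_range (fun k => (Finsupp.single k 1 : ℕ →₀ ℕ) j)]
    split_ifs with h
    · rw [sum_eq_single j]
      · rw [Finsupp.single_eq_same]
      · intro k _ hk
        rw [Finsupp.single_eq_of_ne (Ne.symm hk)]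
      · intro h2
        exact absurd h h2
    · apply sum_eq_zero
      intro k hk
      rw [Finsupp.single_eq_of_ne]
      rintro rfl
      exact h hk
  · intro e e' h
    apply Subtype.ext
    apply Equiv.ext
    intro p
    apply Fin.ext
    exact congrFun (congrArg Subtype.val h) p
  · rintro ⟨f, hf, hf'⟩
    have hlt : ∀ p, f p < Fintype.card P := by
      intro p
      have h1 := content_apply_pos f p
      rw [hf', ind_apply] at h1
      by_contra h2
      apply h1
      rw [if_neg]
      rw [mem_range]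
      exact h2
    have hinj : Function.Injective f := by
      intro p q h
      by_contra hpq
      have h1 := content_le f hpq h
      rw [hf', ind_apply] at h1
      split_ifs at h1 <;> omega
    have hbij : Function.Bijective (fun p => (⟨f p, hlt p⟩ : Fin (Fintype.card P))) := by
      rw [Fintype.bijective_iff_injective_and_card]
      refine ⟨fun p q h => hinj (congrArg Fin.val h), by simp⟩
    refine ⟨⟨Equiv.ofBijective _ hbij, ?_⟩, ?_⟩
    · intro a b hab
      show f a < f b
      exact lt_of_le_of_ne (hf a b hab).1 (fun h => hab.ne (hinj h))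
    · apply Subtype.ext
      rfl

lemma nle_pos : 0 < nle P := by
  classical
  unfold nle
  letI : Fintype (LinearExtension P) := (inferInstance : Fintype P)
  have hc : Fintype.card (LinearExtension P) = Fintype.card P := rfl
  let E : P ≃ LinearExtension P := Equiv.refl P
  let M := monoEquivOfFin (LinearExtension P) hc
  have hne : Nonempty {e : P ≃ Fin (Fintype.card P) // ∀ a b : P, a < b → e a < e b} := by
    refine ⟨⟨E.trans M.symm.toEquiv, ?_⟩⟩
    intro a b hab
    show M.symm (E a) < M.symm (E b)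
    rw [OrderIso.lt_iff_lt]
    have h1 : toLinearExtension a ≤ toLinearExtension b := toLinearExtension.monotone hab.le
    exact lt_of_le_of_ne h1 (fun h => hab.ne h)
  have : Finite {e : P ≃ Fin (Fintype.card P) // ∀ a b : P, a < b → e a < e b} := inferInstance
  exact Nat.card_pos

theorem necessary {Q : Subring (MvPowerSeries ℕ ℚ)} (hQ : IsQSym Q) (ω : P → ℕ) (f g : Q)
    (h : ((f * g : Q) : MvPowerSeries ℕ ℚ) = Gam ω) (hf : ¬ IsUnit f) (hg : ¬ IsUnit g) :
    ∃ i, 0 < i ∧ i < Fintype.card P ∧ Hom i (f : MvPowerSeries ℕ ℚ) ∧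
      Hom (Fintype.card P - i) (g : MvPowerSeries ℕ ℚ) ∧ (Fintype.card P).choose i ∣ nle P ∧
      ∀ ζ : ℂ, IsPrimitiveRoot ζ (Fintype.card P) →
        ev (Fintype.card P) ζ (Fintype.card P) (Gam ω) = 0 := by
  have hmem := Gam_mem ω
  have e : (f : MvPowerSeries ℕ ℚ) * (g : MvPowerSeries ℕ ℚ) = Gam ω := h
  -- the number of linear extensions is positive
  have hG0 : (f : MvPowerSeries ℕ ℚ) * (g : MvPowerSeries ℕ ℚ) ≠ 0 := by
    rw [e]
    intro h0
    have h1 := congrFun h0 (ind (range (Fintype.card P)))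
    have h2 : Gam ω (ind (range (Fintype.card P))) = (nle P : ℚ) := by
      rw [← card_lin ω]
      rfl
    rw [h2] at h1
    have h3 := nle_pos (P := P)
    have h4 : (nle P : ℚ) = 0 := h1
    have h5 : nle P = 0 := by exact_mod_cast h4
    omega
  obtain ⟨i, j, hij, hi, hj⟩ := factors f g (Fintype.card P) (by rw [e]; exact hom_Gam ω) hG0
    ((hQ f).1 f.2).1 ((hQ g).1 g.2).1
  have hf0 : f ≠ 0 := by
    rintro rfl
    apply hG0
    show (0 : MvPowerSeries ℕ ℚ) * _ = 0
    rw [zero_mul]
  have hg0 : g ≠ 0 := by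
    rintro rfl
    apply hG0
    show _ * (0 : MvPowerSeries ℕ ℚ) = 0
    rw [mul_zero]
  have hi0 : 0 < i := by
    rcases Nat.eq_zero_or_pos i with rfl | h1
    · exact absurd (unit_of_hom hQ f hi hf0) hf
    · exact h1
  have hj0 : 0 < j := by
    rcases Nat.eq_zero_or_pos j with rfl | h1
    · exact absurd (unit_of_hom hQ g hj hg0) hg
    · exact h1
  have hj' : Fintype.card P - i = j := by omega
  refine ⟨i, hi0, by omega, hi, by rw [hj']; exact hj, ?_, ?_⟩
  · have h1 := choose_dvd f g ((hQ f).1 f.2).2 ((hQ g).1 g.2).2 i j (Fintype.card P) hij hi hj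
      (left_ne_zero_of_mul hG0) (right_ne_zero_of_mul hG0)
      (fun m => Nat.card {f : P → ℕ // (∀ a b : P, a < b → f a ≤ f b ∧ (ω b < ω a → f a < f b)) ∧
        ∑ p : P, Finsupp.single (f p) 1 = m}) (fun m => by rw [e]; rfl)
    rw [card_lin] at h1
    exact h1
  · intro ζ hζ
    have h1 := ev_mul (Fintype.card P) ζ i j _ _ hi hj
    rw [hij, e] at h1
    rw [h1, ev_zero (Fintype.card P) ζ hζ i hi0 (by omega) _ ((hQ f).1 f.2).2, zero_mul]

end

end Pool.Agent.K6.H82.QS
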