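import Mathlib

/-!
The sum of `ζ^(∑ h_v φ_v)` over the maps `φ` from the vertices of a tree to `0, …, n-1` which satisfy
one of the relations `≤`, `<`, `≥`, `>` along every edge, for a primitive `n`-th root of unity `ζ` and
positive weights `h_v` of sum at most `n`: it vanishes if and only if the sum is less than `n`.
-/

set_option autoImplicit false

namespace Pool.Agent.K6.H82.QS

open Finset

/-- the four relations -/
inductive Rel4 : (ℕ → ℕ → Prop) → Prop
  | le : Rel4 (fun x y => x ≤ y)
  | lt : Rel4 (fun x y => x < y)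
  | ge : Rel4 (fun x y => y ≤ x)
  | gt : Rel4 (fun x y => y < x)

open Classical in
lemma sum_lt (n : ℕ) (w : ℂ) (hw : w ≠ 1) (y : ℕ) (hy : y ≤ n) :
    ∑ x : Fin n, (if (x : ℕ) < y then w ^ (x : ℕ) else 0) = (w ^ y - 1) / (w - 1) := by
  rw [Fin.sum_univ_eq_sum_range (fun x => if x < y then w ^ x else 0) n, ← sum_filter]
  have : (range n).filter (fun x => x < y) = range y := by
    ext x
    simp only [mem_filter, mem_range]
    omega
  rw [this, geom_sum_eq hw]

open Classical in
lemma sum_pos' (n : ℕ) (w : ℂ) (hw : w ≠ 1) (y : ℕ) (hy : y ≤ n) (p : Fin n → Prop)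
    (hp : ∀ x, p x ↔ (x : ℕ) < y) :
    ∑ x : Fin n, (if p x then w ^ (x : ℕ) else 0) = (w ^ y - 1) / (w - 1) := by
  refine (sum_congr rfl fun x _ => ?_).trans (sum_lt n w hw y hy)
  exact if_congr (hp x) rfl rfl

open Classical in
lemma sum_neg' (n : ℕ) (w : ℂ) (hw : w ≠ 1) (hn : w ^ n = 1) (y : ℕ) (hy : y ≤ n)
    (p : Fin n → Prop) (hp : ∀ x, p x ↔ ¬ (x : ℕ) < y) :
    ∑ x : Fin n, (if p x then w ^ (x : ℕ) else 0) = - ((w ^ y - 1) / (w - 1)) := by
  have hT : ∑ x : Fin n, w ^ (x : ℕ) = 0 := by
    rw [Fin.sum_univ_eq_sum_range (fun x => w ^ x) n, geom_sum_eq hw, hn, sub_self, zero_div]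
  rw [← sum_pos' n w hw y hy (fun x => (x : ℕ) < y) (fun _ => Iff.rfl), eq_neg_iff_add_eq_zero,
    ← sum_add_distrib]
  refine (sum_congr rfl fun x _ => ?_).trans hT
  by_cases h : (x : ℕ) < y
  · rw [if_pos h, if_neg (fun h' => (hp x).1 h' h), zero_add]
  · rw [if_neg h, if_pos ((hp x).2 h), add_zero]

open Classical in
lemma leaf_sum (n : ℕ) (w : ℂ) (hw : w ≠ 1) (hn : w ^ n = 1) (hw0 : w ≠ 0) (r : ℕ → ℕ → Prop)
    (hr : Rel4 r) : ∃ a b : ℂ, a ≠ 0 ∧ ∀ y : Fin n,
      ∑ x : Fin n, (if r (y : ℕ) (x : ℕ) then w ^ (x : ℕ) else 0) = a * w ^ (y : ℕ) + b := by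
  have hw1 : w - 1 ≠ 0 := sub_ne_zero.2 hw
  cases hr with
  | le =>
    refine ⟨-1 / (w - 1), 1 / (w - 1), by simp [hw1], fun y => ?_⟩
    rw [sum_neg' n w hw hn y y.2.le (fun x : Fin n => (y : ℕ) ≤ (x : ℕ)) (fun x => by omega)]
    field_simp
    ring
  | lt =>
    refine ⟨-w / (w - 1), 1 / (w - 1), by simp [hw1, hw0], fun y => ?_⟩
    rw [sum_neg' n w hw hn (y + 1) (by omega) (fun x : Fin n => (y : ℕ) < (x : ℕ))
      (fun x => by omega)]
    field_simp
    ring
  | ge =>
    refine ⟨w / (w - 1), -1 / (w - 1), by simp [hw1, hw0], fun y => ?_⟩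
    rw [sum_pos' n w hw (y + 1) (by omega) (fun x : Fin n => (x : ℕ) ≤ (y : ℕ))
      (fun x => by omega)]
    field_simp
    ring
  | gt =>
    refine ⟨1 / (w - 1), -1 / (w - 1), by simp [hw1], fun y => ?_⟩
    rw [sum_pos' n w hw y y.2.le (fun x : Fin n => (x : ℕ) < (y : ℕ)) (fun x => Iff.rfl)]
    field_simp
    ring

open Classical in
/-- the sum -/
noncomputable def Z (n : ℕ) (ζ : ℂ) (V : Type) [Fintype V] (G : SimpleGraph V)
    (rel : V → V → ℕ → ℕ → Prop) (h : V → ℕ) : ℂ :=
  ∑ φ : V → Fin n, if ∀ u v, G.Adj u v → rel u v (φ u) (φ v) then ζ ^ (∑ v, h v * (φ v : ℕ)) else 0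

open Classical in
theorem tree_sum (n : ℕ) (hn : 0 < n) (ζ : ℂ) (hζ : IsPrimitiveRoot ζ n) (N : ℕ) :
    ∀ (V : Type) [Fintype V], Fintype.card V = N → ∀ (G : SimpleGraph V), G.IsTree →
      ∀ (rel : V → V → ℕ → ℕ → Prop), (∀ u v, G.Adj u v → Rel4 (rel u v)) →
      (∀ u v, G.Adj u v → ∀ x y, rel u v x y ↔ rel v u y x) →
      ∀ h : V → ℕ, (∀ v, 0 < h v) →
        ((∑ v, h v < n) → Z n ζ V G rel h = 0) ∧ ((∑ v, h v = n) → Z n ζ V G rel h ≠ 0) := by
  induction N using Nat.strong_induction_on with
  | _ N ih =>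
    intro V _ hcard G hG rel h4 hsymm h h1
    rcases subsingleton_or_nontrivial V with hV | hV
    · have hne : Nonempty V := hG.connected.nonempty
      obtain ⟨v0⟩ := hne
      have : Unique V := ⟨⟨v0⟩, fun x => Subsingleton.elim _ _⟩
      have hZ : Z n ζ V G rel h = ∑ x : Fin n, (ζ ^ (h default)) ^ (x : ℕ) := by
        unfold Z
        rw [← (Equiv.funUnique V (Fin n)).symm.sum_comp]
        apply sum_congr rfl
        intro x _
        rw [if_pos]
        · rw [← pow_mul]
          simp
        · intro u v huv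
          rw [Subsingleton.elim u v] at huv
          exact absurd huv (G.loopless.irrefl v)
      have hs : ∑ v, h v = h default := by simp
      rw [hZ, hs, Fin.sum_univ_eq_sum_range (fun x => (ζ ^ (h default)) ^ x) n]
      constructor
      · intro h2
        rw [geom_sum_eq (hζ.pow_ne_one_of_pos_of_lt (h1 _).ne' h2), ← pow_mul, mul_comm, pow_mul,
          hζ.pow_eq_one, one_pow, sub_self, zero_div]
      · intro h2
        rw [h2, hζ.pow_eq_one]
        simp
        omega
    · obtain ⟨l, hl⟩ := hG.exists_vert_degree_one_of_nontrivial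
      obtain ⟨v0, hv0, huniq⟩ := SimpleGraph.degree_eq_one_iff_existsUnique_adj.1 hl
      simp only at huniq
      have hvl : v0 ≠ l := hv0.ne'
      let V' : Type := {j : V // j ≠ l}
      let G' : SimpleGraph V' := G.comap (Subtype.val : V' → V)
      have hG' : G'.IsTree :=
        ⟨hG.connected.induce_compl_singleton_of_degree_eq_one hl, hG.isAcyclic.induce _⟩
      let w0 : V' := ⟨v0, hvl⟩
      have hc : Fintype.card V' < N := by
        rw [← hcard]
        exact Fintype.card_subtype_lt (p := fun j => j ≠ l) (x := l) (by simp)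
      let rel' : V' → V' → ℕ → ℕ → Prop := fun u v => rel u.1 v.1
      have h4' : ∀ u v, G'.Adj u v → Rel4 (rel' u v) := fun u v huv => h4 u.1 v.1 huv
      have hsymm' : ∀ u v, G'.Adj u v → ∀ x y, rel' u v x y ↔ rel' v u y x :=
        fun u v huv => hsymm u.1 v.1 huv
      let ha : V' → ℕ := fun v => h v.1 + if v = w0 then h l else 0
      let hb : V' → ℕ := fun v => h v.1
      have hsum : ∑ v, h v = h l + ∑ v, hb v :=
        Fintype.sum_eq_add_sum_subtype_ne h l
      have hsuma : ∑ v, ha v = h l + ∑ v, hb v := by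
        show ∑ v : V', (h v.1 + if v = w0 then h l else 0) = _
        rw [sum_add_distrib, sum_ite_eq' univ w0, if_pos (mem_univ _), add_comm]
      have hb1 : 0 < ∑ v, hb v := by
        have : hb w0 ≤ ∑ v, hb v := single_le_sum (fun _ _ => Nat.zero_le _) (mem_univ w0)
        have := h1 v0
        have e : hb w0 = h v0 := rfl
        omega
      have key : (∑ v, h v ≤ n) → ∃ a b : ℂ, a ≠ 0 ∧
          Z n ζ V G rel h = a * Z n ζ V' G' rel' ha + b * Z n ζ V' G' rel' hb := by
        intro hle
        have hln : h l < n := by omega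
        obtain ⟨a, b, ha0, hab⟩ := leaf_sum n (ζ ^ h l)
          (hζ.pow_ne_one_of_pos_of_lt (h1 l).ne' hln)
          (by rw [← pow_mul, mul_comm, pow_mul, hζ.pow_eq_one, one_pow])
          (pow_ne_zero _ (hζ.ne_zero hn.ne')) (rel v0 l) (h4 v0 l hv0.symm)
        refine ⟨a, b, ha0, ?_⟩
        unfold Z
        rw [← (Equiv.funSplitAt l (Fin n)).symm.sum_comp, Fintype.sum_prod_type_right,
          mul_sum, mul_sum, ← sum_add_distrib]
        refine sum_congr (Finset.ext fun _ => by simp only [mem_univ]) ?_
        intro ψ _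
        have e1 : ∀ x : Fin n, (Equiv.funSplitAt l (Fin n)).symm (x, ψ) l = x := by
          intro x
          simp [Equiv.funSplitAt, Equiv.piSplitAt]
        have e2 : ∀ (x : Fin n) (j : V'), (Equiv.funSplitAt l (Fin n)).symm (x, ψ) j.1 = ψ j := by
          intro x j
          have := j.2
          simp [Equiv.funSplitAt, Equiv.piSplitAt, this]
        have e3 : ∀ x : Fin n, (∀ u v, G.Adj u v → rel u v
            ((Equiv.funSplitAt l (Fin n)).symm (x, ψ) u) ((Equiv.funSplitAt l (Fin n)).symm (x, ψ) v)) ↔
            ((∀ u v, G'.Adj u v → rel' u v (ψ u) (ψ v)) ∧ rel v0 l (ψ w0) x) := by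
          intro x
          constructor
          · intro hh
            constructor
            · intro u v huv
              have := hh u.1 v.1 huv
              rwa [e2, e2] at this
            · have := hh v0 l hv0.symm
              rw [e1] at this
              have e := e2 x w0
              rw [show (w0 : V) = v0 from rfl] at e
              rw [e] at this
              exact this
          · rintro ⟨hh, hh'⟩ u v huv
            by_cases hu : u = l
            · subst hu
              have hv : v = v0 := huniq v huv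
              subst hv
              rw [hsymm _ _ huv, e1]
              have e := e2 x w0
              rw [show (w0 : V) = v from rfl] at e
              rwa [e]
            · by_cases hv : v = l
              · subst hv
                have hu' : u = v0 := huniq u huv.symm
                subst hu'
                rw [e1]
                have e := e2 x w0
                rw [show (w0 : V) = u from rfl] at e
                rwa [e]
              · have := hh ⟨u, hu⟩ ⟨v, hv⟩ huv
                have eu := e2 x ⟨u, hu⟩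
                have ev := e2 x ⟨v, hv⟩
                simp only at eu ev
                rw [eu, ev]
                exact this
        have e4 : ∀ x : Fin n, ∑ v, h v * (((Equiv.funSplitAt l (Fin n)).symm (x, ψ) v : Fin n) : ℕ) =
            h l * (x : ℕ) + ∑ v, hb v * (ψ v : ℕ) := by
          intro x
          rw [Fintype.sum_eq_add_sum_subtype_ne _ l, e1]
          congr 1
          apply sum_congr rfl
          intro v _
          rw [e2]
        simp_rw [e3, e4]
        by_cases hC : ∀ u v, G'.Adj u v → rel' u v (ψ u) (ψ v)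
        · rw [if_pos hC, if_pos hC]
          have h5 := hab (ψ w0)
          have h6 : ∑ v, ha v * (ψ v : ℕ) = h l * (ψ w0 : ℕ) + ∑ v, hb v * (ψ v : ℕ) := by
            show ∑ v : V', (h v.1 + if v = w0 then h l else 0) * (ψ v : ℕ) = _
            simp_rw [add_mul, ite_mul, zero_mul]
            rw [sum_add_distrib, sum_ite_eq' univ w0, if_pos (mem_univ _), add_comm]
          rw [h6, pow_add, pow_mul]
          have h7 : ∀ x : Fin n, (if (∀ u v, G'.Adj u v → rel' u v (ψ u) (ψ v)) ∧
              rel v0 l (ψ w0) x then ζ ^ (h l * (x : ℕ) + ∑ v, hb v * (ψ v : ℕ)) else 0) =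
              (if rel v0 l (ψ w0) x then (ζ ^ h l) ^ (x : ℕ) else 0) * ζ ^ (∑ v, hb v * (ψ v : ℕ)) := by
            intro x
            by_cases hr : rel v0 l (ψ w0) x
            · rw [if_pos ⟨hC, hr⟩, if_pos hr, pow_add, pow_mul]
            · rw [if_neg (fun hh => hr hh.2), if_neg hr, zero_mul]
          rw [sum_congr rfl fun x _ => h7 x, ← sum_mul, h5]
          ring
        · rw [if_neg hC, if_neg hC, mul_zero, mul_zero, add_zero]
          apply sum_eq_zero
          intro x _
          rw [if_neg (fun hh => hC hh.1)]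
      have hb2 := (ih _ hc V' rfl G' hG' rel' h4' hsymm' hb (fun v => h1 v.1))
      have ha2 := (ih _ hc V' rfl G' hG' rel' h4' hsymm' ha (fun v => Nat.add_pos_left (h1 v.1) _))
      have hl1 := h1 l
      constructor
      · intro h2
        obtain ⟨a, b, _, h3⟩ := key h2.le
        rw [h3, ha2.1 (by omega), hb2.1 (by omega), mul_zero, mul_zero, add_zero]
      · intro h2
        obtain ⟨a, b, ha0, h3⟩ := key h2.le
        rw [h3, hb2.1 (by omega), mul_zero, add_zero]
        exact mul_ne_zero ha0 (ha2.2 (by omega))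

end Pool.Agent.K6.H82.QS
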