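import Pool.Agent.K6.H82.QS.Irr
import Pool.Agent.K6.H82.QS.Tree

/-!
The generating function of the `(P, ω)`-partitions at `(1, ζ, …, ζ^(n-1), 0, 0, …)`.
-/

set_option autoImplicit false

namespace Pool.Agent.K6.H82.QS

open Finset

/-- the `(P, ω)`-partitions -/
def IsPP {P : Type} [PartialOrder P] (ω : P → ℕ) (f : P → ℕ) : Prop :=
  ∀ a b : P, a < b → f a ≤ f b ∧ (ω b < ω a → f a < f b)

/-- the generating function -/
noncomputable def Gam {P : Type} [Fintype P] [PartialOrder P] (ω : P → ℕ) : MvPowerSeries ℕ ℚ :=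
  fun m : ℕ →₀ ℕ =>
    ((Nat.card {f : P → ℕ // (∀ a b : P, a < b → f a ≤ f b ∧ (ω b < ω a → f a < f b)) ∧
      ∑ p : P, Finsupp.single (f p) 1 = m} : ℕ) : ℚ)

section
variable {P : Type} [Fintype P] [PartialOrder P]

lemma dg_content (f : P → ℕ) : dg (∑ p : P, Finsupp.single (f p) 1) = Fintype.card P := by
  have h : ∀ s : Finset P, dg (∑ p ∈ s, Finsupp.single (f p) 1) = s.card := by
    classical
    intro s
    induction s using Finset.induction_on with
    | empty => rw [sum_empty, dg_zero, card_empty]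
    | insert a s ha ih =>
      rw [sum_insert ha, dg_add, ih, card_insert_of_notMem ha, add_comm]
      congr 1
      unfold dg
      rw [Finsupp.sum_single_index rfl]
  exact h univ

lemma wt_content (n : ℕ) (f : P → Fin n) :
    wt n (∑ p : P, Finsupp.single ((f p : Fin n) : ℕ) 1) = ∑ p, (f p : ℕ) := by
  have h : ∀ s : Finset P, wt n (∑ p ∈ s, Finsupp.single ((f p : Fin n) : ℕ) 1) =
      ∑ p ∈ s, (f p : ℕ) := by
    classical
    intro s
    induction s using Finset.induction_on with
    | empty => simp [wt]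
    | insert a s ha ih =>
      rw [sum_insert ha, sum_insert ha, wt_add, ih]
      congr 1
      unfold wt
      rw [sum_eq_single (f a : ℕ)]
      · rw [Finsupp.single_eq_same, mul_one]
      · intro j _ hj
        rw [Finsupp.single_eq_of_ne hj, mul_zero]
      · intro h
        exact absurd (mem_range.2 (f a).2) h
  exact h univ

lemma content_apply_pos (f : P → ℕ) (p : P) : (∑ p : P, Finsupp.single (f p) 1 : ℕ →₀ ℕ) (f p) ≠ 0 := by
  rw [Finsupp.finsetSum_apply]
  have h : (Finsupp.single (f p) 1 : ℕ →₀ ℕ) (f p) ≤ ∑ q : P, (Finsupp.single (f q) 1 : ℕ →₀ ℕ) (f p) :=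
    single_le_sum (f := fun q => (Finsupp.single (f q) 1 : ℕ →₀ ℕ) (f p))
      (fun _ _ => Nat.zero_le _) (mem_univ p)
  rw [Finsupp.single_eq_same] at h
  omega

lemma hom_Gam (ω : P → ℕ) : Hom (Fintype.card P) (Gam ω) := by
  intro m hm
  have h : Nat.card {f : P → ℕ // (∀ a b : P, a < b → f a ≤ f b ∧ (ω b < ω a → f a < f b)) ∧
      ∑ p : P, Finsupp.single (f p) 1 = m} ≠ 0 := by
    intro h
    apply hm
    show ((Nat.card _ : ℕ) : ℚ) = 0
    rw [h]
    rfl
  have h2 : Nonempty {f : P → ℕ // (∀ a b : P, a < b → f a ≤ f b ∧ (ω b < ω a → f a < f b)) ∧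
      ∑ p : P, Finsupp.single (f p) 1 = m} := by
    by_contra h3
    rw [not_nonempty_iff] at h3
    exact h Nat.card_of_isEmpty
  obtain ⟨f, _, hf⟩ := h2
  rw [← hf, dg_content]

open Classical in
lemma ev_Gam (ω : P → ℕ) (n : ℕ) (ζ : ℂ) :
    ev n ζ (Fintype.card P) (Gam ω) =
      ∑ φ : P → Fin n, if IsPP ω (fun p => (φ p : ℕ)) then ζ ^ (∑ p, (φ p : ℕ)) else 0 := by
  rw [← Finset.sum_filter]
  have hmap : ∀ φ ∈ (univ : Finset (P → Fin n)).filter (fun φ => IsPP ω (fun p => (φ p : ℕ))),
      (∑ p : P, Finsupp.single ((φ p : Fin n) : ℕ) 1) ∈ finsuppAntidiag (range n) (Fintype.card P) := by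
    intro φ _
    rw [mem_A]
    refine ⟨dg_content _, ?_⟩
    intro j hj
    rw [Finsupp.mem_support_iff, Finsupp.finsetSum_apply] at hj
    obtain ⟨p, _, hp⟩ := Finset.exists_ne_zero_of_sum_ne_zero hj
    rw [mem_range]
    by_contra h
    apply hp
    rw [Finsupp.single_eq_of_ne]
    intro h2
    have := (φ p).2
    omega
  rw [← sum_fiberwise_of_maps_to hmap]
  unfold ev
  apply sum_congr rfl
  intro m hm
  rw [mem_A] at hm
  have h1 : ∀ φ ∈ ((univ : Finset (P → Fin n)).filter (fun φ => IsPP ω (fun p => (φ p : ℕ)))).filter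
      (fun φ => ∑ p : P, Finsupp.single ((φ p : Fin n) : ℕ) 1 = m),
      ζ ^ (∑ p, (φ p : ℕ)) = ζ ^ wt n m := by
    intro φ hφ
    rw [mem_filter] at hφ
    rw [← hφ.2, wt_content]
  rw [sum_congr rfl h1, sum_const, nsmul_eq_mul]
  congr 1
  show (((Nat.card _ : ℕ) : ℚ) : ℂ) = _
  rw [Rat.cast_natCast]
  congr 1
  have hlt : ∀ f : P → ℕ, ∑ p : P, Finsupp.single (f p) 1 = m → ∀ p, f p < n := by
    intro f hf p
    have h3 := content_apply_pos f p
    rw [hf] at h3
    exact mem_range.1 (hm.2 (Finsupp.mem_support_iff.2 h3))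
  let e : {f : P → ℕ // (∀ a b : P, a < b → f a ≤ f b ∧ (ω b < ω a → f a < f b)) ∧
      ∑ p : P, Finsupp.single (f p) 1 = m} ≃
      {φ : P → Fin n // φ ∈ ((univ : Finset (P → Fin n)).filter
        (fun φ => IsPP ω (fun p => (φ p : ℕ)))).filter
        (fun φ => ∑ p : P, Finsupp.single ((φ p : Fin n) : ℕ) 1 = m)} :=
    { toFun := fun f => ⟨fun p => ⟨f.1 p, hlt f.1 f.2.2 p⟩, by
        rw [mem_filter, mem_filter]
        exact ⟨⟨mem_univ _, f.2.1⟩, f.2.2⟩⟩
      invFun := fun φ => ⟨fun p => (φ.1 p : ℕ), by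
        have h := φ.2
        rw [mem_filter, mem_filter] at h
        exact ⟨h.1.2, h.2⟩⟩
      left_inv := fun f => rfl
      right_inv := fun φ => rfl }
  rw [Nat.card_congr e, Nat.card_eq_fintype_card, Fintype.card_coe]

/-! ### the Hasse diagram -/

/-- the relation along an edge of the Hasse diagram -/
def hrel (ω : P → ℕ) (u v : P) (x y : ℕ) : Prop :=
  (u < v → x ≤ y ∧ (ω v < ω u → x < y)) ∧ (v < u → y ≤ x ∧ (ω u < ω v → y < x))

lemma hrel_symm (ω : P → ℕ) (u v : P) (x y : ℕ) : hrel ω u v x y ↔ hrel ω v u y x := by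
  unfold hrel
  tauto

lemma hrel4 (ω : P → ℕ) (u v : P) (h : (SimpleGraph.hasse P).Adj u v) : Rel4 (hrel ω u v) := by
  rcases h with h | h
  · have h1 : u < v := h.lt
    have h2 : ¬ v < u := h1.asymm
    by_cases h3 : ω v < ω u
    · have : hrel ω u v = fun x y => x < y := by
        funext x y
        apply propext
        unfold hrel
        constructor
        · intro h4
          exact (h4.1 h1).2 h3
        · intro h4
          exact ⟨fun _ => ⟨h4.le, fun _ => h4⟩, fun h5 => absurd h5 h2⟩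
      rw [this]
      exact Rel4.lt
    · have : hrel ω u v = fun x y => x ≤ y := by
        funext x y
        apply propext
        unfold hrel
        constructor
        · intro h4
          exact (h4.1 h1).1
        · intro h4
          exact ⟨fun _ => ⟨h4, fun h5 => absurd h5 h3⟩, fun h5 => absurd h5 h2⟩
      rw [this]
      exact Rel4.le
  · have h1 : v < u := h.lt
    have h2 : ¬ u < v := h1.asymm
    by_cases h3 : ω u < ω v
    · have : hrel ω u v = fun x y => y < x := by
        funext x y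
        apply propext
        unfold hrel
        constructor
        · intro h4
          exact (h4.2 h1).2 h3
        · intro h4
          exact ⟨fun h5 => absurd h5 h2, fun _ => ⟨h4.le, fun _ => h4⟩⟩
      rw [this]
      exact Rel4.gt
    · have : hrel ω u v = fun x y => y ≤ x := by
        funext x y
        apply propext
        unfold hrel
        constructor
        · intro h4
          exact (h4.2 h1).1
        · intro h4
          exact ⟨fun h5 => absurd h5 h2, fun _ => ⟨h4, fun h5 => absurd h5 h3⟩⟩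
      rw [this]
      exact Rel4.ge

lemma isPP_iff (ω : P → ℕ) (f : P → ℕ) :
    IsPP ω f ↔ ∀ u v, (SimpleGraph.hasse P).Adj u v → hrel ω u v (f u) (f v) := by
  classical
  constructor
  · intro h u v _
    exact ⟨fun h1 => h u v h1, fun h1 => h v u h1⟩
  · intro h a b hab
    letI : LocallyFiniteOrder P := Fintype.toLocallyFiniteOrder
    rw [lt_iff_transGen_covBy] at hab
    induction hab with
    | single h1 => exact (h _ _ (Or.inl h1)).1 h1.lt
    | tail _ h1 ih =>
      have h2 := (h _ _ (Or.inl h1)).1 h1.lt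
      refine ⟨ih.1.trans h2.1, fun h3 => ?_⟩
      rcases lt_or_ge (ω _) (ω _) with h4 | h4
      · exact lt_of_lt_of_le (ih.2 h4) h2.1
      · exact lt_of_le_of_lt ih.1 (h2.2 (lt_of_lt_of_le h3 h4))

theorem tree_irr {Q : Subring (MvPowerSeries ℕ ℚ)} (hQ : IsQSym Q) (ω : P → ℕ)
    (hT : (SimpleGraph.hasse P).IsTree) (G : Q) (hG : (G : MvPowerSeries ℕ ℚ) = Gam ω) :
    Irreducible G := by
  classical
  have hn : 0 < Fintype.card P := by
    have := hT.connected.nonempty
    exact Fintype.card_pos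
  have hζ : IsPrimitiveRoot (Complex.exp (2 * Real.pi * Complex.I / (Fintype.card P : ℕ)))
      (Fintype.card P) := Complex.isPrimitiveRoot_exp _ hn.ne'
  refine irr_of_ev hQ (Fintype.card P) hn G (by rw [hG]; exact hom_Gam ω) _ hζ ?_
  rw [hG, ev_Gam]
  have h1 := (tree_sum (Fintype.card P) hn _ hζ _ P rfl (SimpleGraph.hasse P) hT (hrel ω)
    (hrel4 ω) (fun u v _ x y => hrel_symm ω u v x y) (fun _ => 1) (fun _ => Nat.one_pos)).2
    (by simp)
  intro h2
  apply h1
  rw [← h2]
  unfold Z
  refine sum_congr (Finset.ext fun _ => by simp only [mem_univ]) ?_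
  intro φ _
  refine if_congr ?_ (by simp) rfl
  rw [isPP_iff]

end

end Pool.Agent.K6.H82.QS
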