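import Pool.Agent.K6.H82.QS.Part

/-!
The ring of the quasisymmetric functions; the generating functions of `(P, ω)`-partitions are
quasisymmetric.
-/

set_option autoImplicit false

namespace Pool.Agent.K6.H82.QS

open Finset

lemma mul_ne_exists {F G : MvPowerSeries ℕ ℚ} {m : ℕ →₀ ℕ} (h : (F * G) m ≠ 0) :
    ∃ a b, a + b = m ∧ F a ≠ 0 ∧ G b ≠ 0 := by
  rw [mul_apply] at h
  obtain ⟨p, hp, h4⟩ := Finset.exists_ne_zero_of_sum_ne_zero h
  rw [HasAntidiagonal.mem_antidiagonal] at hp
  exact ⟨p.1, p.2, hp, left_ne_zero_of_mul h4, right_ne_zero_of_mul h4⟩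

lemma isQS_mul {F G : MvPowerSeries ℕ ℚ} (hF : IsQS F) (hG : IsQS G) : IsQS (F * G) := by
  intro m g hg
  rw [mul_apply, mul_apply]
  symm
  refine sum_bij (fun p _ => (Finsupp.mapDomain g p.1, Finsupp.mapDomain g p.2)) ?_ ?_ ?_ ?_
  · intro p hp
    rw [HasAntidiagonal.mem_antidiagonal] at hp ⊢
    rw [← hp, Finsupp.mapDomain_add]
  · intro p _ q _ h
    rw [Prod.mk.injEq] at h
    exact Prod.ext (Finsupp.mapDomain_injective hg.injective h.1)
      (Finsupp.mapDomain_injective hg.injective h.2)
  · rintro ⟨a, b⟩ hp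
    rw [HasAntidiagonal.mem_antidiagonal] at hp
    simp only at hp
    have hr : ∀ j, j ∉ Set.range g → a j = 0 ∧ b j = 0 := by
      intro j hj
      have h1 : (a + b) j = 0 := by
        rw [hp, Finsupp.mapDomain_of_notMem_range _ _ hj]
      rw [Finsupp.add_apply] at h1
      omega
    have ha : (a.support : Set ℕ) ⊆ Set.range g := by
      intro j hj
      by_contra h
      exact (Finsupp.mem_support_iff.1 hj) (hr j h).1
    have hb : (b.support : Set ℕ) ⊆ Set.range g := by
      intro j hj
      by_contra h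
      exact (Finsupp.mem_support_iff.1 hj) (hr j h).2
    have ea := Finsupp.mapDomain_comapDomain g hg.injective a ha
    have eb := Finsupp.mapDomain_comapDomain g hg.injective b hb
    refine ⟨(Finsupp.comapDomain g a hg.injective.injOn, Finsupp.comapDomain g b hg.injective.injOn),
      ?_, ?_⟩
    · rw [HasAntidiagonal.mem_antidiagonal]
      apply Finsupp.mapDomain_injective hg.injective
      rw [Finsupp.mapDomain_add, ea, eb, hp]
    · simp only [ea, eb]
  · intro p _
    rw [hF _ _ hg, hG _ _ hg]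

/-- The ring of the quasisymmetric functions in the variables `x_0, x_1, …`: the power series of
bounded degree whose coefficients do not change when the variables are renumbered by a strictly
increasing map. -/
def QSym : Subring (MvPowerSeries ℕ ℚ) where
  carrier := {F | (∃ N : ℕ, ∀ m : ℕ →₀ ℕ, N < m.sum (fun _ e => e) → F m = 0) ∧
    ∀ m : ℕ →₀ ℕ, ∀ g : ℕ → ℕ, StrictMono g → F (Finsupp.mapDomain g m) = F m}
  zero_mem' := ⟨⟨0, fun _ _ => rfl⟩, fun _ _ _ => rfl⟩
  one_mem' := by
    have h0 : ∀ m : ℕ →₀ ℕ, (1 : MvPowerSeries ℕ ℚ) m = if m = 0 then 1 else 0 :=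
      fun m => MvPowerSeries.coeff_one m
    constructor
    · refine ⟨0, fun m hm => ?_⟩
      rw [h0, if_neg]
      rintro rfl
      rw [Finsupp.sum_zero_index] at hm
      omega
    · intro m g hg
      rw [h0, h0]
      congr 1
      apply propext
      constructor
      · intro h
        apply Finsupp.mapDomain_injective hg.injective
        rw [h, Finsupp.mapDomain_zero]
      · rintro rfl
        rw [Finsupp.mapDomain_zero]
  add_mem' := by
    rintro F G ⟨⟨N, hN⟩, hF⟩ ⟨⟨M, hM⟩, hG⟩
    refine ⟨⟨max N M, fun m hm => ?_⟩, fun m g hg => ?_⟩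
    · show F m + G m = 0
      rw [hN m (lt_of_le_of_lt (le_max_left _ _) hm), hM m (lt_of_le_of_lt (le_max_right _ _) hm),
        add_zero]
    · show F _ + G _ = F m + G m
      rw [hF m g hg, hG m g hg]
  neg_mem' := by
    rintro F ⟨⟨N, hN⟩, hF⟩
    refine ⟨⟨N, fun m hm => ?_⟩, fun m g hg => ?_⟩
    · show - F m = 0
      rw [hN m hm, neg_zero]
    · show - F _ = - F m
      rw [hF m g hg]
  mul_mem' := by
    rintro F G ⟨⟨N, hN⟩, hF⟩ ⟨⟨M, hM⟩, hG⟩
    refine ⟨⟨N + M, fun m hm => ?_⟩, isQS_mul hF hG⟩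
    by_contra h
    obtain ⟨a, b, hab, ha, hb⟩ := mul_ne_exists h
    have h1 : dg a ≤ N := by
      by_contra h2
      exact ha (hN a (not_le.1 h2))
    have h2 : dg b ≤ M := by
      by_contra h2
      exact hb (hM b (not_le.1 h2))
    have h3 : N + M < dg m := hm
    rw [← hab, dg_add] at h3
    omega

lemma isQSym_QSym : IsQSym QSym := fun _ => Iff.rfl

section
variable {P : Type} [Fintype P] [PartialOrder P]

lemma Gam_mem (ω : P → ℕ) : Gam ω ∈ QSym := by
  constructor
  · refine ⟨Fintype.card P, fun m hm => ?_⟩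
    by_contra h
    have h1 := hom_Gam ω m h
    have h2 : Fintype.card P < dg m := hm
    omega
  · intro m g hg
    show ((Nat.card _ : ℕ) : ℚ) = ((Nat.card _ : ℕ) : ℚ)
    congr 1
    have hc : ∀ f : P → ℕ, ∑ p : P, Finsupp.single (g (f p)) 1 =
        Finsupp.mapDomain g (∑ p : P, Finsupp.single (f p) 1) := by
      intro f
      rw [Finsupp.mapDomain_finsetSum]
      apply sum_congr rfl
      intro p _
      rw [Finsupp.mapDomain_single]
    symm
    refine Nat.card_congr (Equiv.ofBijective (fun f => ⟨fun p => g (f.1 p), ?_, ?_⟩) ⟨?_, ?_⟩)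
    · intro a b hab
      obtain ⟨h1, h2⟩ := f.2.1 a b hab
      exact ⟨hg.le_iff_le.2 h1, fun h3 => hg (h2 h3)⟩
    · rw [hc, f.2.2]
    · intro f f' h
      apply Subtype.ext
      funext p
      have h1 := congrFun (congrArg Subtype.val h) p
      exact hg.injective h1
    · rintro ⟨f, hf, hf'⟩
      have h1 : ∀ p, ∃ x, g x = f p := by
        intro p
        by_contra h
        have h2 := content_apply_pos f p
        rw [hf', Finsupp.mapDomain_of_notMem_range _ _ h] at h2
        exact h2 rfl
      choose k hk using h1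
      refine ⟨⟨k, ?_, ?_⟩, ?_⟩
      · intro a b hab
        obtain ⟨h2, h3⟩ := hf a b hab
        rw [← hk a, ← hk b] at h2 h3
        exact ⟨hg.le_iff_le.1 h2, fun h4 => hg.lt_iff_lt.1 (h3 h4)⟩
      · apply Finsupp.mapDomain_injective hg.injective
        rw [← hc, ← hf']
        simp_rw [hk]
      · apply Subtype.ext
        funext p
        exact hk p

end

end Pool.Agent.K6.H82.QS
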