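import Mathlib

/-!
The product of the series `∑ ζ^(j e) s_e t^e`, `j < n`, over a noncommutative ring, for a primitive
`n`-th root of unity `ζ`: the coefficients of `t^k`, `0 < k < n`, vanish.
-/

set_option autoImplicit false

namespace Pool.Agent.K6.H82.QS

open Finset

section rot
variable {A : Type} [Ring A] [Algebra ℂ A]

/-- the series `∑ ζ^(j e) s_e t^e` -/
noncomputable def sg (ζ : ℂ) (s : ℕ → A) (j : ℕ) : PowerSeries A :=
  PowerSeries.mk fun e => (ζ ^ (j * e)) • s e

/-- the product of the series with `j < N` -/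
noncomputable def Pr (ζ : ℂ) (s : ℕ → A) : ℕ → PowerSeries A
  | 0 => 1
  | N + 1 => Pr ζ s N * sg ζ s N

/-- the substitution of `ζ t` for `t` -/
noncomputable def R (ζ : ℂ) (F : PowerSeries A) : PowerSeries A :=
  PowerSeries.mk fun k => (ζ ^ k) • PowerSeries.coeff k F

lemma coeff_R (ζ : ℂ) (F : PowerSeries A) (k : ℕ) :
    PowerSeries.coeff k (R ζ F) = (ζ ^ k) • PowerSeries.coeff k F := by
  unfold R
  rw [PowerSeries.coeff_mk]

lemma coeff_sg (ζ : ℂ) (s : ℕ → A) (j k : ℕ) :
    PowerSeries.coeff k (sg ζ s j) = (ζ ^ (j * k)) • s k := by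
  unfold sg
  rw [PowerSeries.coeff_mk]

lemma R_mul (ζ : ℂ) (F G : PowerSeries A) : R ζ (F * G) = R ζ F * R ζ G := by
  ext k
  rw [coeff_R, PowerSeries.coeff_mul, PowerSeries.coeff_mul, smul_sum]
  apply sum_congr rfl
  intro p hp
  rw [HasAntidiagonal.mem_antidiagonal] at hp
  rw [coeff_R, coeff_R, smul_mul_smul_comm, ← pow_add, hp]

lemma R_one (ζ : ℂ) : R ζ (1 : PowerSeries A) = 1 := by
  ext k
  rw [coeff_R, PowerSeries.coeff_one]
  split_ifs with h
  · rw [h, pow_zero, one_smul]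
  · rw [smul_zero]

lemma R_sg (ζ : ℂ) (s : ℕ → A) (j : ℕ) : R ζ (sg ζ s j) = sg ζ s (j + 1) := by
  ext k
  rw [coeff_R, coeff_sg, coeff_sg, smul_smul, ← pow_add]
  congr 2
  ring

lemma rot (ζ : ℂ) (s : ℕ → A) (N : ℕ) : sg ζ s 0 * R ζ (Pr ζ s N) = Pr ζ s (N + 1) := by
  induction N with
  | zero => simp [Pr, R_one]
  | succ N ih =>
    show sg ζ s 0 * R ζ (Pr ζ s N * sg ζ s N) = Pr ζ s (N + 1) * sg ζ s (N + 1)
    rw [R_mul, R_sg, ← mul_assoc, ih]

lemma sg_per (ζ : ℂ) (s : ℕ → A) (n : ℕ) (h : ζ ^ n = 1) : sg ζ s n = sg ζ s 0 := by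
  ext k
  rw [coeff_sg, coeff_sg, pow_mul, h, one_pow, Nat.zero_mul, pow_zero]

lemma coeff_zero_Pr (ζ : ℂ) (s : ℕ → A) (h : s 0 = 1) (N : ℕ) :
    PowerSeries.coeff 0 (Pr ζ s N) = 1 := by
  induction N with
  | zero => simp [Pr]
  | succ N ih =>
    show PowerSeries.coeff 0 (Pr ζ s N * sg ζ s N) = 1
    rw [PowerSeries.coeff_mul]
    simp [ih, coeff_sg, h]

/-- the coefficients of the product between `0` and `n` vanish -/
lemma coeff_Pr (ζ : ℂ) (s : ℕ → A) (h : s 0 = 1) (n : ℕ) (hζ : IsPrimitiveRoot ζ n) (k : ℕ)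
    (hk : 0 < k) (hn : k < n) : PowerSeries.coeff k (Pr ζ s n) = 0 := by
  induction k using Nat.strong_induction_on with
  | _ k ih =>
    have key : sg ζ s 0 * R ζ (Pr ζ s n) = Pr ζ s n * sg ζ s 0 := by
      rw [rot]
      show Pr ζ s n * sg ζ s n = Pr ζ s n * sg ζ s 0
      rw [sg_per ζ s n hζ.pow_eq_one]
    have h1 := congrArg (PowerSeries.coeff k) key
    rw [PowerSeries.coeff_mul, PowerSeries.coeff_mul] at h1
    have hL : ∑ p ∈ antidiagonal k, PowerSeries.coeff p.1 (sg ζ s 0) *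
        PowerSeries.coeff p.2 (R ζ (Pr ζ s n)) =
        s k + (ζ ^ k) • PowerSeries.coeff k (Pr ζ s n) := by
      rw [← Finset.sum_subset (s₁ := {(k, 0), (0, k)})]
      · rw [sum_pair (by simp; omega)]
        simp [coeff_sg, coeff_R, coeff_zero_Pr ζ s h, h]
      · intro p hp
        simp only [mem_insert, mem_singleton] at hp
        rw [HasAntidiagonal.mem_antidiagonal]
        rcases hp with rfl | rfl <;> simp
      · rintro ⟨a, b⟩ hp hp'
        rw [HasAntidiagonal.mem_antidiagonal] at hp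
        simp only [mem_insert, mem_singleton, Prod.mk.injEq, not_or, not_and] at hp'
        simp only at hp ⊢
        rw [coeff_R, ih b (by omega) (by omega) (by omega), smul_zero, mul_zero]
    have hR : ∑ p ∈ antidiagonal k, PowerSeries.coeff p.1 (Pr ζ s n) *
        PowerSeries.coeff p.2 (sg ζ s 0) =
        s k + PowerSeries.coeff k (Pr ζ s n) := by
      rw [← Finset.sum_subset (s₁ := {(k, 0), (0, k)})]
      · rw [sum_pair (by simp; omega)]
        simp [coeff_sg, coeff_zero_Pr ζ s h, h]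
        abel
      · intro p hp
        simp only [mem_insert, mem_singleton] at hp
        rw [HasAntidiagonal.mem_antidiagonal]
        rcases hp with rfl | rfl <;> simp
      · rintro ⟨a, b⟩ hp hp'
        rw [HasAntidiagonal.mem_antidiagonal] at hp
        simp only [mem_insert, mem_singleton, Prod.mk.injEq, not_or, not_and] at hp'
        simp only at hp ⊢
        rw [ih a (by omega) (by omega) (by omega), zero_mul]
    rw [hL, hR] at h1
    have h2 : (ζ ^ k - 1) • PowerSeries.coeff k (Pr ζ s n) = 0 := by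
      rw [sub_smul, one_smul, sub_eq_zero]
      exact add_left_cancel h1
    rcases smul_eq_zero.1 h2 with h3 | h3
    · exact absurd (sub_eq_zero.1 h3) (hζ.pow_ne_one_of_pos_of_lt hk.ne' hn)
    · exact h3

end rot

end Pool.Agent.K6.H82.QS
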